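import Pool.Agent.helper79.SX.Spec

set_option autoImplicit false

open Finset ArithmeticFunction

namespace Pool.Agent.SX

/-- Module XSZ. -/
theorem XSZ : XSZ_stmt := by
  intro n hn
  have hn' : (128 : ℝ) ≤ (n : ℝ) := by exact_mod_cast hn
  have h2 : 0.0992 * ((n : ℝ) + 1) ^ 2 ≤ Xn n := by
    unfold Xn
    nlinarith [mul_nonneg (sub_nonneg.mpr hn') (sub_nonneg.mpr hn')]
  refine ⟨?_, h2, ?_⟩
  · unfold Xn
    linarith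
  · have h3 : (0 : ℝ) ≤ 0.0992 * ((n : ℝ) + 1) ^ 2 := by positivity
    have h4 : (0.0992 * ((n : ℝ) + 1) ^ 2) ^ 10 ≤ Xn n ^ 10 := pow_le_pow_left₀ h3 h2 10
    have h5 : (0.0992 * ((n : ℝ) + 1) ^ 2) ^ 10 = 0.0992 ^ 10 * ((n : ℝ) + 1) ^ 20 := by ring
    rw [h5] at h4
    have h6 : (1 : ℝ) ≤ 2 ^ 34 * 0.0992 ^ 10 := by norm_num
    have h7 : (0 : ℝ) ≤ ((n : ℝ) + 1) ^ 20 := by positivity
    calc ((n : ℝ) + 1) ^ 20 = 1 * ((n : ℝ) + 1) ^ 20 := (one_mul _).symm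
      _ ≤ (2 ^ 34 * 0.0992 ^ 10) * ((n : ℝ) + 1) ^ 20 := mul_le_mul_of_nonneg_right h6 h7
      _ = 2 ^ 34 * (0.0992 ^ 10 * ((n : ℝ) + 1) ^ 20) := by rw [mul_assoc]
      _ ≤ 2 ^ 34 * Xn n ^ 10 := mul_le_mul_of_nonneg_left h4 (by positivity)

end Pool.Agent.SX
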